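import Mathlib

set_option autoImplicit false

open MeasureTheory Filter Topology

namespace Pool.Agent.Results.MP_aa1cf3_an

/-- The unit square `I² = [0,1] × [0,1]`. -/
def unitSquare : Set (ℝ × ℝ) := Set.Icc 0 1 ×ˢ Set.Icc 0 1

/-- Lebesgue measure on the unit square. -/
noncomputable def lam : Measure (ℝ × ℝ) := (volume : Measure (ℝ × ℝ)).restrict unitSquare

/-- The rectangular partial sums `S_{mn} = ∑_{i < m} ∑_{k < n} u_{ik}` of a double series. -/
def partialSum (u : ℕ → ℕ → ℝ) (m n : ℕ) : ℝ :=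
  ∑ i ∈ Finset.range m, ∑ k ∈ Finset.range n, u i k

/-- Convergence in Pringsheim's sense: the (finite) limit of `S_{mn}` exists as
`min (m, n) → ∞`. -/
def ConvergesPringsheim (u : ℕ → ℕ → ℝ) : Prop :=
  ∃ s : ℝ, ∀ ε : ℝ, 0 < ε → ∃ N : ℕ, ∀ m n : ℕ, N ≤ min m n → |partialSum u m n - s| < ε

/-- Convergence of an ordinary series `∑ v_k`. -/
def SeriesConverges (v : ℕ → ℝ) : Prop :=
  ∃ s : ℝ, Tendsto (fun n => ∑ k ∈ Finset.range n, v k) atTop (𝓝 s)

/-- Regular convergence: convergence in Pringsheim's sense and convergence of every row series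
and every column series. -/
def ConvergesRegularly (u : ℕ → ℕ → ℝ) : Prop :=
  ConvergesPringsheim u ∧ (∀ i, SeriesConverges (fun k => u i k)) ∧
    ∀ k, SeriesConverges (fun i => u i k)

/-- A double orthonormal system `{φ_{ik}}` in `L²(I²)`. (The indices start from `0`, so `φ i k`
stands for `φ_{i+1,k+1}`.) -/
structure IsDoubleOrthonormalSystem (φ : ℕ → ℕ → ℝ × ℝ → ℝ) : Prop where
  memLp : ∀ i k, MemLp (φ i k) 2 lam
  orthonormal : ∀ i k j l, ∫ z, φ i k z * φ j l z ∂lam = if (i, k) = (j, l) then 1 else 0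

/-- Property (i): the system is uniformly bounded. -/
def UniformlyBounded (φ : ℕ → ℕ → ℝ × ℝ → ℝ) : Prop :=
  ∃ M : ℝ, ∀ i k, ∀ᵐ z ∂lam, |φ i k z| ≤ M

/-- Property (ii): the system is complete in `L²(I²)`: only the zero function is orthogonal to
all `φ_{ik}`. -/
def IsCompleteSystem (φ : ℕ → ℕ → ℝ × ℝ → ℝ) : Prop :=
  ∀ f : ℝ × ℝ → ℝ, MemLp f 2 lam → (∀ i k, ∫ z, f z * φ i k z ∂lam = 0) → f =ᵐ[lam] 0

/-- Property (iii), with regular convergence: for every square summable coefficient array the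
series `∑ a_{ik} φ_{ik}` converges regularly almost everywhere on `I²`. -/
def ConvergesAERegularly (φ : ℕ → ℕ → ℝ × ℝ → ℝ) : Prop :=
  ∀ a : ℕ → ℕ → ℝ, Summable (fun p : ℕ × ℕ => a p.1 p.2 ^ 2) →
    ∀ᵐ z ∂lam, ConvergesRegularly (fun i k => a i k * φ i k z)

end Pool.Agent.Results.MP_aa1cf3_an
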