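import Mathlib
import Pool.Agent.Results.MP_aa1cf3_an.Defs
import Pool.Agent.H13.Dbl.Square

set_option autoImplicit false

namespace Pool.Agent.Results.MP_aa1cf3_an.BoundedComplete

open Pool.Agent.Results.MP_aa1cf3_an

/-- There is a uniformly bounded, complete double orthonormal system on the unit square such
that every series with square summable coefficients with respect to it converges regularly (in
particular in Pringsheim's sense) almost everywhere. -/
theorem result : ∃ φ : ℕ → ℕ → ℝ × ℝ → ℝ,
    IsDoubleOrthonormalSystem φ ∧ UniformlyBounded φ ∧ IsCompleteSystem φ ∧
      ConvergesAERegularly φ :=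
  H13.Dbl.main

end Pool.Agent.Results.MP_aa1cf3_an.BoundedComplete
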